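import Mathlib

/-!
# Rank one decompositions in cones

`D P Q` is the additive monoid of integral matrices generated by the rank one matrices `t zᵀ`,
`t ∈ P`, `z ∈ Q`.
-/

set_option autoImplicit false

namespace Pool.Agent.U571.NR

open Matrix Finset

variable {n m : ℕ}

/-- the monoid generated by the rank one matrices `t zᵀ`, `t ∈ P`, `z ∈ Q` -/
def D (P : AddSubmonoid (Fin n → ℤ)) (Q : AddSubmonoid (Fin m → ℤ)) :
    AddSubmonoid (Matrix (Fin n) (Fin m) ℤ) :=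
  AddSubmonoid.closure {M | ∃ t ∈ P, ∃ z ∈ Q, M = vecMulVec t z}

theorem mem_D {P : AddSubmonoid (Fin n → ℤ)} {Q : AddSubmonoid (Fin m → ℤ)} {t : Fin n → ℤ}
    {z : Fin m → ℤ} (ht : t ∈ P) (hz : z ∈ Q) : vecMulVec t z ∈ D P Q :=
  AddSubmonoid.subset_closure ⟨t, ht, z, hz, rfl⟩

theorem smul_mem_D {P : AddSubmonoid (Fin n → ℤ)} {Q : AddSubmonoid (Fin m → ℤ)}
    {M : Matrix (Fin n) (Fin m) ℤ} (h : M ∈ D P Q) {c : ℤ} (hc : 0 ≤ c) : c • M ∈ D P Q := by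
  obtain ⟨k, rfl⟩ := Int.eq_ofNat_of_zero_le hc
  rw [natCast_zsmul]
  exact nsmul_mem h k

theorem unit_pos {P : AddSubmonoid (Fin n → ℤ)} {Q : AddSubmonoid (Fin m → ℤ)} {α : Fin n → ℤ}
    {β : Fin m → ℤ} (hα : α ∈ P) (hβ : β ∈ Q) (hαp : ∀ i, α + Pi.single i 1 ∈ P)
    (hαm : ∀ i, α - Pi.single i 1 ∈ P) (hβp : ∀ j, β + Pi.single j 1 ∈ Q)
    (hβm : ∀ j, β - Pi.single j 1 ∈ Q) (i : Fin n) (j : Fin m) :
    Matrix.single i j (1 : ℤ) + (3 : ℤ) • vecMulVec α β ∈ D P Q := by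
  have h : Matrix.single i j (1 : ℤ) + (3 : ℤ) • vecMulVec α β =
      vecMulVec (α + Pi.single i 1) (β + Pi.single j 1) + vecMulVec α (β - Pi.single j 1) +
        vecMulVec (α - Pi.single i 1) β := by
    have h1 : Matrix.single i j (1 : ℤ) = vecMulVec (Pi.single i 1) (Pi.single j 1) := by
      ext a b
      simp only [Matrix.single_apply, vecMulVec_apply, Pi.single_apply, @eq_comm _ i a,
        @eq_comm _ j b]
      by_cases h1 : a = i <;> by_cases h2 : b = j <;> simp [h1, h2]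
    rw [h1]
    ext a b
    simp only [Matrix.add_apply, Matrix.smul_apply, vecMulVec_apply, Pi.add_apply, Pi.sub_apply,
      smul_eq_mul]
    ring
  rw [h]
  exact add_mem (add_mem (mem_D (hαp i) (hβp j)) (mem_D hα (hβm j))) (mem_D (hαm i) hβ)

theorem unit_neg {P : AddSubmonoid (Fin n → ℤ)} {Q : AddSubmonoid (Fin m → ℤ)} {α : Fin n → ℤ}
    {β : Fin m → ℤ} (hα : α ∈ P) (hβ : β ∈ Q) (hαp : ∀ i, α + Pi.single i 1 ∈ P)
    (hαm : ∀ i, α - Pi.single i 1 ∈ P) (hβp : ∀ j, β + Pi.single j 1 ∈ Q)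
    (hβm : ∀ j, β - Pi.single j 1 ∈ Q) (i : Fin n) (j : Fin m) :
    Matrix.single i j (-1 : ℤ) + (3 : ℤ) • vecMulVec α β ∈ D P Q := by
  have h : Matrix.single i j (-1 : ℤ) + (3 : ℤ) • vecMulVec α β =
      vecMulVec (α - Pi.single i 1) (β + Pi.single j 1) + vecMulVec α (β - Pi.single j 1) +
        vecMulVec (α + Pi.single i 1) β := by
    have h1 : Matrix.single i j (-1 : ℤ) = - vecMulVec (Pi.single i 1) (Pi.single j 1) := by
      ext a b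
      simp only [Matrix.single_apply, vecMulVec_apply, Pi.single_apply, Matrix.neg_apply,
        @eq_comm _ i a, @eq_comm _ j b]
      by_cases h1 : a = i <;> by_cases h2 : b = j <;> simp [h1, h2]
    rw [h1]
    ext a b
    simp only [Matrix.add_apply, Matrix.smul_apply, vecMulVec_apply, Pi.add_apply, Pi.sub_apply,
      smul_eq_mul, Matrix.neg_apply]
    ring
  rw [h]
  exact add_mem (add_mem (mem_D (hαm i) (hβp j)) (mem_D hα (hβm j))) (mem_D (hαp i) hβ)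

theorem entry {P : AddSubmonoid (Fin n → ℤ)} {Q : AddSubmonoid (Fin m → ℤ)} {α : Fin n → ℤ}
    {β : Fin m → ℤ} (hα : α ∈ P) (hβ : β ∈ Q) (hαp : ∀ i, α + Pi.single i 1 ∈ P)
    (hαm : ∀ i, α - Pi.single i 1 ∈ P) (hβp : ∀ j, β + Pi.single j 1 ∈ Q)
    (hβm : ∀ j, β - Pi.single j 1 ∈ Q) (i : Fin n) (j : Fin m) (a : ℤ) :
    Matrix.single i j a + (3 * |a|) • vecMulVec α β ∈ D P Q := by
  rcases le_total 0 a with ha | ha
  · have h : Matrix.single i j a + (3 * |a|) • vecMulVec α β =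
        a • (Matrix.single i j (1 : ℤ) + (3 : ℤ) • vecMulVec α β) := by
      rw [abs_of_nonneg ha, smul_add, smul_smul, Matrix.smul_single, smul_eq_mul, mul_one,
        mul_comm]
    rw [h]
    exact smul_mem_D (unit_pos hα hβ hαp hαm hβp hβm i j) ha
  · have h : Matrix.single i j a + (3 * |a|) • vecMulVec α β =
        (-a) • (Matrix.single i j (-1 : ℤ) + (3 : ℤ) • vecMulVec α β) := by
      rw [abs_of_nonpos ha, smul_add, smul_smul, Matrix.smul_single, smul_eq_mul]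
      congr 2
      · ring
      · ring
    rw [h]
    exact smul_mem_D (unit_neg hα hβ hαp hαm hβp hβm i j) (by linarith)

/-- the core: `X + 3 ‖X‖₁ α βᵀ` is in the monoid -/
theorem core {P : AddSubmonoid (Fin n → ℤ)} {Q : AddSubmonoid (Fin m → ℤ)} {α : Fin n → ℤ}
    {β : Fin m → ℤ} (hα : α ∈ P) (hβ : β ∈ Q) (hαp : ∀ i, α + Pi.single i 1 ∈ P)
    (hαm : ∀ i, α - Pi.single i 1 ∈ P) (hβp : ∀ j, β + Pi.single j 1 ∈ Q)
    (hβm : ∀ j, β - Pi.single j 1 ∈ Q) (X : Matrix (Fin n) (Fin m) ℤ) {c : ℤ}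
    (hc : 3 * ∑ i, ∑ j, |X i j| ≤ c) : X + c • vecMulVec α β ∈ D P Q := by
  have h : X + c • vecMulVec α β =
      (∑ i, ∑ j, (Matrix.single i j (X i j) + (3 * |X i j|) • vecMulVec α β)) +
        (c - 3 * ∑ i, ∑ j, |X i j|) • vecMulVec α β := by
    have h1 : ∑ i, ∑ j, (Matrix.single i j (X i j) + (3 * |X i j|) • vecMulVec α β) =
        X + (3 * ∑ i, ∑ j, |X i j|) • vecMulVec α β := by
      conv_rhs => rw [Matrix.matrix_eq_sum_single X]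
      simp only [Finset.sum_add_distrib, Finset.mul_sum, Finset.sum_smul]
      congr 1
      conv_rhs => rw [← Matrix.matrix_eq_sum_single X]
    rw [h1, add_assoc, ← add_smul]
    congr 2
    ring
  rw [h]
  exact add_mem (sum_mem fun i _ => sum_mem fun j _ => entry hα hβ hαp hαm hβp hβm i j _)
    (smul_mem_D (mem_D hα hβ) (by linarith))

/-- a product decomposition -/
theorem factor {P : AddSubmonoid (Fin n → ℤ)} {Q : AddSubmonoid (Fin m → ℤ)}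
    {R : Matrix (Fin n) (Fin m) ℤ} (h : R ∈ D P Q) :
    ∃ (r : ℕ) (T : Matrix (Fin n) (Fin r) ℤ) (Z : Matrix (Fin r) (Fin m) ℤ),
      R = T * Z ∧ (∀ p, (fun i => T i p) ∈ P) ∧ ∀ p, Z p ∈ Q := by
  have key : ∃ (ι : Type) (_ : Fintype ι) (t : ι → Fin n → ℤ) (z : ι → Fin m → ℤ),
      (∀ p, t p ∈ P) ∧ (∀ p, z p ∈ Q) ∧ R = ∑ p, vecMulVec (t p) (z p) := by
    refine AddSubmonoid.closure_induction (motive := fun R _ => ∃ (ι : Type) (_ : Fintype ι)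
      (t : ι → Fin n → ℤ) (z : ι → Fin m → ℤ),
      (∀ p, t p ∈ P) ∧ (∀ p, z p ∈ Q) ∧ R = ∑ p, vecMulVec (t p) (z p)) ?_ ?_ ?_ h
    · rintro M ⟨t, ht, z, hz, rfl⟩
      exact ⟨Unit, inferInstance, fun _ => t, fun _ => z, fun _ => ht, fun _ => hz, by simp⟩
    · exact ⟨Empty, inferInstance, fun e => e.elim, fun e => e.elim, fun e => e.elim,
        fun e => e.elim, by simp⟩
    · rintro M M' - - ⟨ι, _, t, z, ht, hz, rfl⟩ ⟨κ, _, t', z', ht', hz', rfl⟩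
      refine ⟨ι ⊕ κ, inferInstance, Sum.elim t t', Sum.elim z z', ?_, ?_, ?_⟩
      · rintro (p | p)
        · exact ht p
        · exact ht' p
      · rintro (p | p)
        · exact hz p
        · exact hz' p
      · rw [Fintype.sum_sum_type]
        rfl
  obtain ⟨ι, _, t, z, ht, hz, hR⟩ := key
  let e := Fintype.equivFin ι
  refine ⟨Fintype.card ι, Matrix.of fun i p => t (e.symm p) i, Matrix.of fun p j => z (e.symm p) j,
    ?_, fun p => ht _, fun p => hz _⟩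
  rw [hR]
  ext i j
  rw [Matrix.sum_apply, Matrix.mul_apply]
  simp only [vecMulVec_apply, Matrix.of_apply]
  exact (Equiv.sum_comp e.symm (fun p => t p i * z p j)).symm

/-! ### two elementary equivalences -/

/-- the matrix over `ℕ` -/
def toN {a b : ℕ} (M : Matrix (Fin a) (Fin b) ℤ) : Matrix (Fin a) (Fin b) ℕ := M.map Int.toNat

theorem toN_mul {a b c : ℕ} (M : Matrix (Fin a) (Fin b) ℤ) (M' : Matrix (Fin b) (Fin c) ℤ)
    (h : ∀ i j, 0 ≤ M i j) (h' : ∀ i j, 0 ≤ M' i j) : toN (M * M') = toN M * toN M' := by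
  ext i j
  unfold toN
  rw [Matrix.map_apply, Matrix.mul_apply, Matrix.mul_apply]
  zify
  rw [Int.toNat_of_nonneg (Finset.sum_nonneg fun k _ => mul_nonneg (h i k) (h' k j))]
  refine Finset.sum_congr rfl fun k _ => ?_
  rw [Matrix.map_apply, Matrix.map_apply, ← Int.natCast_toNat_eq_self.2 (h i k),
    ← Int.natCast_toNat_eq_self.2 (h' k j)]
  simp

theorem toN_cast {a b : ℕ} (M : Matrix (Fin a) (Fin b) ℤ) (h : ∀ i j, 0 ≤ M i j) :
    (toN M).map (Nat.cast : ℕ → ℤ) = M := by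
  ext i j
  simp only [toN, Matrix.map_apply]
  exact Int.toNat_of_nonneg (h i j)

theorem mul_nonneg_entry {a b c : ℕ} {M : Matrix (Fin a) (Fin b) ℤ} {M' : Matrix (Fin b) (Fin c) ℤ}
    (h : ∀ i j, 0 ≤ M i j) (h' : ∀ i j, 0 ≤ M' i j) (i : Fin a) (j : Fin c) : 0 ≤ (M * M') i j := by
  rw [Matrix.mul_apply]
  exact Finset.sum_nonneg fun k _ => mul_nonneg (h i k) (h' k j)

/-- `T L` and `T' L'` with `L T = L' T'`, all four factors over `ℕ` -/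
theorem two_steps {a b r : ℕ} (T : Matrix (Fin a) (Fin r) ℤ) (L : Matrix (Fin r) (Fin a) ℤ)
    (T' : Matrix (Fin b) (Fin r) ℤ) (L' : Matrix (Fin r) (Fin b) ℤ)
    (hT : ∀ i j, 0 ≤ T i j) (hL : ∀ i j, 0 ≤ L i j) (hT' : ∀ i j, 0 ≤ T' i j)
    (hL' : ∀ i j, 0 ≤ L' i j) (h : L * T = L' * T') :
    ∃ (A : Matrix (Fin a) (Fin a) ℕ) (B : Matrix (Fin b) (Fin b) ℕ),
      A.map (Nat.cast : ℕ → ℤ) = T * L ∧ B.map (Nat.cast : ℕ → ℤ) = T' * L' ∧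
      ∃ (T₀ : Matrix (Fin a) (Fin r) ℕ) (L₀ : Matrix (Fin r) (Fin a) ℕ)
        (T₁ : Matrix (Fin b) (Fin r) ℕ) (L₁ : Matrix (Fin r) (Fin b) ℕ),
        A = T₀ * L₀ ∧ L₀ * T₀ = L₁ * T₁ ∧ B = T₁ * L₁ := by
  refine ⟨toN (T * L), toN (T' * L'), toN_cast _ (mul_nonneg_entry hT hL),
    toN_cast _ (mul_nonneg_entry hT' hL'), toN T, toN L, toN T', toN L', toN_mul _ _ hT hL, ?_,
    toN_mul _ _ hT' hL'⟩
  rw [← toN_mul _ _ hL hT, ← toN_mul _ _ hL' hT', h]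

/-! ### the cones -/

/-- vectors `t ≥ 0` with `S t ≥ 0` -/
def PR {a b : ℕ} (S : Matrix (Fin b) (Fin a) ℤ) : AddSubmonoid (Fin a → ℤ) where
  carrier := {t | (∀ i, 0 ≤ t i) ∧ ∀ j, 0 ≤ (S *ᵥ t) j}
  zero_mem' := ⟨fun _ => le_rfl, fun j => by rw [Matrix.mulVec_zero]; exact le_rfl⟩
  add_mem' := by
    rintro s t ⟨h1, h2⟩ ⟨h3, h4⟩
    refine ⟨fun i => add_nonneg (h1 i) (h3 i), fun j => ?_⟩
    rw [Matrix.mulVec_add]
    exact add_nonneg (h2 j) (h4 j)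

/-- vectors `z ≥ 0` with `z S ≥ 0` -/
def PL {a b : ℕ} (S : Matrix (Fin b) (Fin a) ℤ) : AddSubmonoid (Fin b → ℤ) where
  carrier := {z | (∀ i, 0 ≤ z i) ∧ ∀ j, 0 ≤ (z ᵥ* S) j}
  zero_mem' := ⟨fun _ => le_rfl, fun j => by rw [Matrix.zero_vecMul]; exact le_rfl⟩
  add_mem' := by
    rintro s t ⟨h1, h2⟩ ⟨h3, h4⟩
    refine ⟨fun i => add_nonneg (h1 i) (h3 i), fun j => ?_⟩
    rw [Matrix.add_vecMul]
    exact add_nonneg (h2 j) (h4 j)

theorem mem_PR {a b : ℕ} {S : Matrix (Fin b) (Fin a) ℤ} {t : Fin a → ℤ} :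
    t ∈ PR S ↔ (∀ i, 0 ≤ t i) ∧ ∀ j, 0 ≤ (S *ᵥ t) j := Iff.rfl

theorem mem_PL {a b : ℕ} {S : Matrix (Fin b) (Fin a) ℤ} {z : Fin b → ℤ} :
    z ∈ PL S ↔ (∀ i, 0 ≤ z i) ∧ ∀ j, 0 ≤ (z ᵥ* S) j := Iff.rfl

theorem mem_PL_transpose {a b : ℕ} {S : Matrix (Fin b) (Fin a) ℤ} {z : Fin b → ℤ} :
    z ∈ PL S ↔ z ∈ PR Sᵀ := by
  rw [mem_PL, mem_PR]
  simp only [Matrix.mulVec_transpose]

/-- an elementary equivalence over `ℤ` -/
theorem lift_elem (S : Matrix (Fin m) (Fin n) ℤ) (R : Matrix (Fin n) (Fin m) ℤ)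
    (h : R ∈ D (PR S) (PL S)) :
    ∃ (A : Matrix (Fin n) (Fin n) ℕ) (B : Matrix (Fin m) (Fin m) ℕ),
      A.map (Nat.cast : ℕ → ℤ) = R * S ∧ B.map (Nat.cast : ℕ → ℤ) = S * R ∧
      ∃ (r : ℕ) (T₀ : Matrix (Fin n) (Fin r) ℕ) (L₀ : Matrix (Fin r) (Fin n) ℕ)
        (T₁ : Matrix (Fin m) (Fin r) ℕ) (L₁ : Matrix (Fin r) (Fin m) ℕ),
        A = T₀ * L₀ ∧ L₀ * T₀ = L₁ * T₁ ∧ B = T₁ * L₁ := by
  obtain ⟨r, T, Z, hR, hT, hZ⟩ := factor h
  obtain ⟨A, B, hA, hB, T₀, L₀, T₁, L₁, h1, h2, h3⟩ := two_steps T (Z * S) (S * T) Z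
    (fun i p => (hT p).1 i) (fun p j => (hZ p).2 j) (fun j p => (hT p).2 j)
    (fun p j => (hZ p).1 j) (Matrix.mul_assoc _ _ _)
  refine ⟨A, B, ?_, ?_, r, T₀, L₀, T₁, L₁, h1, h2, h3⟩
  · rw [hA, hR, Matrix.mul_assoc]
  · rw [hB, hR, Matrix.mul_assoc]

/-- a similarity over `ℤ` -/
theorem lift_sim (U V : Matrix (Fin n) (Fin n) ℤ) (hUV : U * V = 1)
    (A : Matrix (Fin n) (Fin n) ℤ) (h : A ∈ D (PR U) (PL V)) :
    ∃ (A' B' : Matrix (Fin n) (Fin n) ℕ),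
      A'.map (Nat.cast : ℕ → ℤ) = A ∧ B'.map (Nat.cast : ℕ → ℤ) = U * A * V ∧
      ∃ (r : ℕ) (T₀ : Matrix (Fin n) (Fin r) ℕ) (L₀ : Matrix (Fin r) (Fin n) ℕ)
        (T₁ : Matrix (Fin n) (Fin r) ℕ) (L₁ : Matrix (Fin r) (Fin n) ℕ),
        A' = T₀ * L₀ ∧ L₀ * T₀ = L₁ * T₁ ∧ B' = T₁ * L₁ := by
  obtain ⟨r, T, Z, hR, hT, hZ⟩ := factor h
  have hVU : V * U = 1 := mul_eq_one_comm.1 hUV
  obtain ⟨A', B', hA, hB, T₀, L₀, T₁, L₁, h1, h2, h3⟩ := two_steps T Z (U * T) (Z * V)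
    (fun i p => (hT p).1 i) (fun p j => (hZ p).1 j) (fun j p => (hT p).2 j)
    (fun p j => (hZ p).2 j) (by
      rw [Matrix.mul_assoc, ← Matrix.mul_assoc V, hVU, Matrix.one_mul])
  refine ⟨A', B', ?_, ?_, r, T₀, L₀, T₁, L₁, h1, h2, h3⟩
  · rw [hA, hR]
  · rw [hB, hR]
    simp only [Matrix.mul_assoc]

end Pool.Agent.U571.NR
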