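import Pool.Agent.U571.NR.Core

/-!
# Integral matrices near a real rank one matrix `λ x wᵀ`
-/

set_option autoImplicit false

namespace Pool.Agent.U571.NR

open Matrix Finset

/-- Data for one side: an integral matrix `S` with entries bounded by `k`, `n ≤ d` columns, a real
vector `x ≥ 1` with `S x ≥ 1`. With `K = d k + k + 1`, `α = ⌈K x⌉`, `u = ⌊s x⌋`, `4 K p ≤ s`,
`2 K ≤ s`. -/
theorem side {n b : ℕ} (S : Matrix (Fin b) (Fin n) ℤ) (d k : ℕ) (hn : n ≤ d)
    (hS : ∀ i j, |S i j| ≤ k) (x : Fin n → ℝ) (hx : ∀ i, 1 ≤ x i)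
    (hSx : ∀ j, 1 ≤ ∑ i, (S j i : ℝ) * x i) (K s : ℝ) (hK : K = d * k + k + 1) (hs : 2 * K ≤ s)
    (p : ℕ) (hp : 4 * K * p ≤ s) :
    ∃ α u : Fin n → ℤ, α ∈ PR S ∧ (∀ i, α + Pi.single i 1 ∈ PR S) ∧
      (∀ i, α - Pi.single i 1 ∈ PR S) ∧ u - (p : ℤ) • α ∈ PR S ∧
      ∀ i, (u i : ℝ) ≤ s * x i ∧ s * x i - 1 ≤ u i ∧ 0 ≤ u i := by
  have hk0 : (0 : ℝ) ≤ k := Nat.cast_nonneg k
  have hd0 : (0 : ℝ) ≤ d := Nat.cast_nonneg d
  have hdk : (0 : ℝ) ≤ d * k := mul_nonneg hd0 hk0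
  have hK1 : 1 ≤ K := by rw [hK]; linarith
  have hp0 : (0 : ℝ) ≤ p := Nat.cast_nonneg p
  have hs0 : 0 ≤ s := by linarith
  have hSr : ∀ i j, |(S i j : ℝ)| ≤ k := fun i j => by
    have := hS i j
    exact_mod_cast this
  -- error bound for integral combinations
  have herr : ∀ (j : Fin b) (ε : Fin n → ℝ), (∀ i, |ε i| ≤ 1) →
      |∑ i, (S j i : ℝ) * ε i| ≤ d * k := by
    intro j ε hε
    calc |∑ i, (S j i : ℝ) * ε i| ≤ ∑ i, |(S j i : ℝ) * ε i| := Finset.abs_sum_le_sum_abs _ _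
      _ ≤ ∑ _i : Fin n, (k : ℝ) := by
          refine Finset.sum_le_sum fun i _ => ?_
          rw [abs_mul]
          calc |(S j i : ℝ)| * |ε i| ≤ k * 1 :=
                mul_le_mul (hSr j i) (hε i) (abs_nonneg _) hk0
            _ = k := mul_one _
      _ = n * k := by rw [Finset.sum_const, Finset.card_univ, Fintype.card_fin, nsmul_eq_mul]
      _ ≤ d * k := mul_le_mul_of_nonneg_right (by exact_mod_cast hn) hk0
  let α : Fin n → ℤ := fun i => ⌈K * x i⌉
  let u : Fin n → ℤ := fun i => ⌊s * x i⌋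
  have hα1 : ∀ i, K * x i ≤ (α i : ℝ) := fun i => Int.le_ceil _
  have hα2 : ∀ i, (α i : ℝ) ≤ K * x i + 1 := fun i => (Int.ceil_lt_add_one _).le
  have hu1 : ∀ i, (u i : ℝ) ≤ s * x i := fun i => Int.floor_le _
  have hu2 : ∀ i, s * x i - 1 ≤ (u i : ℝ) := fun i => (Int.sub_one_lt_floor _).le
  have hKx : ∀ i, K ≤ K * x i := fun i => le_mul_of_one_le_right (by linarith) (hx i)
  have hSα : ∀ j, K - d * k ≤ ((S *ᵥ α) j : ℤ) := by
    intro j
    have h1 : (((S *ᵥ α) j : ℤ) : ℝ) = K * (∑ i, (S j i : ℝ) * x i) +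
        ∑ i, (S j i : ℝ) * ((α i : ℝ) - K * x i) := by
      rw [Matrix.mulVec, dotProduct, Int.cast_sum, Finset.mul_sum, ← Finset.sum_add_distrib]
      refine Finset.sum_congr rfl fun i _ => ?_
      rw [Int.cast_mul]
      ring
    have h2 := herr j (fun i => (α i : ℝ) - K * x i) fun i => by
      rw [abs_le]
      constructor <;> linarith [hα1 i, hα2 i]
    rw [h1]
    have h3 : K ≤ K * (∑ i, (S j i : ℝ) * x i) := le_mul_of_one_le_right (by linarith) (hSx j)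
    linarith [(abs_le.1 h2).1]
  have hSe : ∀ i j, |(S *ᵥ (Pi.single i (1 : ℤ))) j| ≤ k := by
    intro i j
    rw [Matrix.mulVec_single_one, Matrix.col_apply]
    exact hS j i
  have hge : ∀ j, (k : ℤ) ≤ (S *ᵥ α) j := by
    intro j
    have h1 := hSα j
    rw [hK] at h1
    have h2 : (k : ℝ) ≤ ((S *ᵥ α) j : ℤ) := by linarith
    exact_mod_cast h2
  have hα0 : ∀ i, 1 ≤ α i := by
    intro i
    have h2 : (1 : ℝ) ≤ (α i : ℝ) := by linarith [hα1 i, hKx i]
    exact_mod_cast h2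
  have hk0' : (0 : ℤ) ≤ k := Int.natCast_nonneg k
  have hsing : ∀ i i' : Fin n, |(Pi.single i (1 : ℤ) : Fin n → ℤ) i'| ≤ 1 := by
    intro i i'
    rw [Pi.single_apply]
    split_ifs <;> simp
  refine ⟨α, u, ?_, ?_, ?_, ?_, ?_⟩
  · exact ⟨fun i => by linarith [hα0 i], fun j => hk0'.trans (hge j)⟩
  · intro i
    refine ⟨fun i' => ?_, fun j => ?_⟩
    · rw [Pi.add_apply]
      linarith [hα0 i', (abs_le.1 (hsing i i')).1]
    · rw [Matrix.mulVec_add, Pi.add_apply]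
      linarith [hge j, (abs_le.1 (hSe i j)).1]
  · intro i
    refine ⟨fun i' => ?_, fun j => ?_⟩
    · rw [Pi.sub_apply]
      linarith [hα0 i', (abs_le.1 (hsing i i')).2]
    · rw [Matrix.mulVec_sub, Pi.sub_apply]
      linarith [hge j, (abs_le.1 (hSe i j)).2]
  · have hpK : (p : ℝ) ≤ K * p := le_mul_of_one_le_left hp0 hK1
    have hspK : 0 ≤ s - K * p := by nlinarith
    refine ⟨fun i => ?_, fun j => ?_⟩
    · have h1 : (0 : ℝ) ≤ ((u i - (p : ℤ) * α i : ℤ) : ℝ) := by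
        push_cast
        have h2 : (p : ℝ) * α i ≤ p * (K * x i + 1) := mul_le_mul_of_nonneg_left (hα2 i) hp0
        have h3 : (s - K * p) ≤ (s - K * p) * x i := le_mul_of_one_le_right hspK (hx i)
        nlinarith [hu2 i]
      have h2 : (0 : ℤ) ≤ u i - (p : ℤ) * α i := by exact_mod_cast h1
      simpa [Pi.sub_apply, Pi.smul_apply, smul_eq_mul] using h2
    · have h1 : (((S *ᵥ (u - (p : ℤ) • α)) j : ℤ) : ℝ) =
          (s - K * p) * (∑ i, (S j i : ℝ) * x i) - ∑ i, (S j i : ℝ) * (s * x i - u i) -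
            p * ∑ i, (S j i : ℝ) * ((α i : ℝ) - K * x i) := by
        rw [Matrix.mulVec, dotProduct, Int.cast_sum, Finset.mul_sum, Finset.mul_sum,
          ← Finset.sum_sub_distrib, ← Finset.sum_sub_distrib]
        refine Finset.sum_congr rfl fun i _ => ?_
        simp only [Pi.sub_apply, Pi.smul_apply, smul_eq_mul]
        push_cast
        ring
      have h2 := herr j (fun i => (α i : ℝ) - K * x i) fun i => by
        rw [abs_le]
        constructor <;> linarith [hα1 i, hα2 i]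
      have h3 := herr j (fun i => s * x i - (u i : ℝ)) fun i => by
        rw [abs_le]
        constructor <;> linarith [hu1 i, hu2 i]
      have h4 : (s - K * p) ≤ (s - K * p) * (∑ i, (S j i : ℝ) * x i) :=
        le_mul_of_one_le_right hspK (hSx j)
      have h5 : (p : ℝ) * ∑ i, (S j i : ℝ) * ((α i : ℝ) - K * x i) ≤ p * (d * k) :=
        mul_le_mul_of_nonneg_left (abs_le.1 h2).2 hp0
      have h6 : (0 : ℝ) ≤ (((S *ᵥ (u - (p : ℤ) • α)) j : ℤ) : ℝ) := by
        rw [h1]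
        have h7 : (p : ℝ) * (d * k) ≤ K * p := by
          rw [mul_comm K]
          exact mul_le_mul_of_nonneg_left (by rw [hK]; linarith) hp0
        have h8 : (d : ℝ) * k ≤ K := by rw [hK]; linarith
        nlinarith [(abs_le.1 h3).2]
      exact_mod_cast h6
  · intro i
    refine ⟨hu1 i, hu2 i, ?_⟩
    have h1 : (0 : ℝ) ≤ s * x i := mul_nonneg hs0 (by linarith [hx i])
    exact Int.floor_nonneg.2 h1

/-- the decomposition near a real rank one matrix -/
theorem near (d k : ℕ) (H : ℝ) (hH : 1 ≤ H) : ∃ c : ℝ, 0 < c ∧ ∀ (n b m a : ℕ), n ≤ d → m ≤ d →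
    ∀ (S : Matrix (Fin b) (Fin n) ℤ) (S' : Matrix (Fin m) (Fin a) ℤ),
    (∀ i j, |S i j| ≤ k) → (∀ i j, |S' i j| ≤ k) → ∀ (x : Fin n → ℝ) (w : Fin m → ℝ),
    (∀ i, 1 ≤ x i ∧ x i ≤ H) → (∀ i, 1 ≤ w i ∧ w i ≤ H) → (∀ j, 1 ≤ ∑ i, (S j i : ℝ) * x i) →
    (∀ j, 1 ≤ ∑ i, w i * (S' i j : ℝ)) → ∀ lam : ℝ, 1 / c ≤ lam →
    ∀ R : Matrix (Fin n) (Fin m) ℤ, (∀ i j, |(R i j : ℝ) - lam * x i * w j| ≤ c * lam) →
      R ∈ D (PR S) (PL S') := by
  obtain ⟨K, hK⟩ : ∃ K : ℝ, K = d * k + k + 1 := ⟨_, rfl⟩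
  have hk0 : (0 : ℝ) ≤ k := Nat.cast_nonneg k
  have hd0 : (0 : ℝ) ≤ d := Nat.cast_nonneg d
  have hK1 : 1 ≤ K := by
    rw [hK]; linarith [mul_nonneg hd0 hk0]
  obtain ⟨Q, hQ⟩ : ∃ Q : ℝ, Q = 768 * (d + 1) ^ 2 * H * K ^ 2 := ⟨_, rfl⟩
  have hd1 : (1 : ℝ) ≤ (d + 1) ^ 2 := one_le_pow₀ (by linarith)
  have hK2 : 1 ≤ K ^ 2 := one_le_pow₀ hK1
  have hKK : K ≤ K ^ 2 := by nlinarith
  have hA1 : (1 : ℝ) ≤ (d + 1) ^ 2 * H := by nlinarith
  have hQ1 : 768 * K ^ 2 ≤ Q := by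
    rw [hQ]
    nlinarith [mul_nonneg (show (0 : ℝ) ≤ (d + 1) ^ 2 * H - 1 by linarith)
      (show (0 : ℝ) ≤ K ^ 2 by linarith)]
  have hQ0 : 0 < Q := by linarith
  refine ⟨1 / Q ^ 2, by positivity, ?_⟩
  intro n b m a hn hm S S' hS hS' x w hx hw hSx hwS lam hlam R hR
  rw [one_div_one_div] at hlam
  have hlam0 : 0 < lam := lt_of_lt_of_le (by positivity) hlam
  obtain ⟨s, hs⟩ : ∃ s : ℝ, s = √lam := ⟨_, rfl⟩
  have hs2 : s ^ 2 = lam := by rw [hs]; exact Real.sq_sqrt hlam0.le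
  have hs0 : 0 ≤ s := by rw [hs]; exact Real.sqrt_nonneg _
  have hQs : Q ≤ s := by
    rw [hs]
    exact Real.le_sqrt_of_sq_le hlam
  obtain ⟨p, hp⟩ : ∃ p : ℕ, p = ⌊s / (4 * K)⌋₊ := ⟨_, rfl⟩
  have hp1 : 4 * K * p ≤ s := by
    have h1 : (p : ℝ) ≤ s / (4 * K) := by
      rw [hp]
      exact Nat.floor_le (by positivity)
    rw [le_div_iff₀ (by positivity)] at h1
    linarith
  have hp2 : s ≤ 8 * K * p := by
    have h1 : s / (4 * K) < p + 1 := by
      rw [hp]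
      exact Nat.lt_floor_add_one _
    rw [div_lt_iff₀ (by positivity)] at h1
    nlinarith
  have h2K : 2 * K ≤ s := by nlinarith
  obtain ⟨α, u, hα, hαp, hαm, hu, hux⟩ := side S d k hn hS x (fun i => (hx i).1) hSx K s hK h2K p hp1
  obtain ⟨β, v, hβ, hβp, hβm, hv, hvx⟩ := side S'ᵀ d k hm (fun i j => hS' j i) w
    (fun i => (hw i).1) (fun j => by
      simp only [Matrix.transpose_apply]
      rw [Finset.sum_congr rfl fun i _ => mul_comm _ _]
      exact hwS j) K s hK h2K p hp1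
  have hPL : ∀ z, z ∈ PR S'ᵀ → z ∈ PL S' := fun z hz => mem_PL_transpose.2 hz
  -- the error
  have hX : 3 * ∑ i, ∑ j, |(R - vecMulVec u v) i j| ≤ (p : ℤ) * p := by
    have hent : ∀ i j, ((|(R - vecMulVec u v) i j| : ℤ) : ℝ) ≤ lam / Q ^ 2 + 2 * s * H := by
      intro i j
      rw [Matrix.sub_apply, vecMulVec_apply]
      push_cast
      have h1 := hR i j
      have h2 : |lam * x i * w j - (u i : ℝ) * v j| ≤ 2 * s * H := by
        obtain ⟨a1, a2, a3⟩ := hux i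
        obtain ⟨b1, b2, b3⟩ := hvx j
        have a3' : (0 : ℝ) ≤ u i := by exact_mod_cast a3
        have b3' : (0 : ℝ) ≤ v j := by exact_mod_cast b3
        have e : lam * x i * w j = (s * x i) * (s * w j) := by rw [← hs2]; ring
        have hsx : s * x i ≤ s * H := mul_le_mul_of_nonneg_left (hx i).2 hs0
        have hsw : s * w j ≤ s * H := mul_le_mul_of_nonneg_left (hw j).2 hs0
        rw [e, abs_le]
        constructor
        · nlinarith [mul_nonneg hs0 (show (0 : ℝ) ≤ H by linarith)]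
        · have e2 : (s * x i) * (s * w j) - (u i : ℝ) * v j =
              (s * x i) * (s * w j - v j) + v j * (s * x i - u i) := by ring
          rw [e2]
          have f1 : (s * x i) * (s * w j - v j) ≤ (s * x i) * 1 :=
            mul_le_mul_of_nonneg_left (by linarith) (by linarith)
          have f2 : (v j : ℝ) * (s * x i - u i) ≤ v j * 1 :=
            mul_le_mul_of_nonneg_left (by linarith) b3'
          linarith
      calc |(R i j : ℝ) - (u i : ℝ) * v j|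
          = |((R i j : ℝ) - lam * x i * w j) + (lam * x i * w j - (u i : ℝ) * v j)| := by
            congr 1; ring
        _ ≤ |(R i j : ℝ) - lam * x i * w j| + |lam * x i * w j - (u i : ℝ) * v j| := abs_add_le _ _
        _ ≤ 1 / Q ^ 2 * lam + 2 * s * H := add_le_add h1 h2
        _ = lam / Q ^ 2 + 2 * s * H := by ring
    have hsum : ((∑ i, ∑ j, |(R - vecMulVec u v) i j| : ℤ) : ℝ) ≤
        (d : ℝ) ^ 2 * (lam / Q ^ 2 + 2 * s * H) := by
      have hE0 : 0 ≤ lam / Q ^ 2 + 2 * s * H := by positivity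
      rw [Int.cast_sum]
      calc ∑ i, ((∑ j, |(R - vecMulVec u v) i j| : ℤ) : ℝ)
          ≤ ∑ _i : Fin n, (m : ℝ) * (lam / Q ^ 2 + 2 * s * H) := by
            refine Finset.sum_le_sum fun i _ => ?_
            rw [Int.cast_sum]
            calc ∑ j, ((|(R - vecMulVec u v) i j| : ℤ) : ℝ)
                ≤ ∑ _j : Fin m, (lam / Q ^ 2 + 2 * s * H) := Finset.sum_le_sum fun j _ => hent i j
              _ = (m : ℝ) * (lam / Q ^ 2 + 2 * s * H) := by
                rw [Finset.sum_const, Finset.card_univ, Fintype.card_fin, nsmul_eq_mul]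
        _ = (n : ℝ) * ((m : ℝ) * (lam / Q ^ 2 + 2 * s * H)) := by
            rw [Finset.sum_const, Finset.card_univ, Fintype.card_fin, nsmul_eq_mul]
        _ ≤ (d : ℝ) * ((d : ℝ) * (lam / Q ^ 2 + 2 * s * H)) := by
            have hn' : (n : ℝ) ≤ d := by exact_mod_cast hn
            have hm' : (m : ℝ) ≤ d := by exact_mod_cast hm
            have hm0 : (0 : ℝ) ≤ m := Nat.cast_nonneg m
            exact mul_le_mul hn' (mul_le_mul_of_nonneg_right hm' hE0) (by positivity) hd0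
        _ = (d : ℝ) ^ 2 * (lam / Q ^ 2 + 2 * s * H) := by ring
    have hfin : 3 * ((d : ℝ) ^ 2 * (lam / Q ^ 2 + 2 * s * H)) ≤ (p : ℝ) * p := by
      have hpp : s ^ 2 ≤ 64 * K ^ 2 * ((p : ℝ) * p) := by
        have := mul_self_le_mul_self hs0 hp2
        nlinarith
      have hdd : (d : ℝ) ^ 2 ≤ (d + 1) ^ 2 := by nlinarith
      have e1 : (d : ℝ) ^ 2 * (lam / Q ^ 2) * (384 * K ^ 2) ≤ s ^ 2 := by
        have : (d : ℝ) ^ 2 * (384 * K ^ 2) ≤ Q ^ 2 := by
          have g1 : (d : ℝ) ^ 2 * (384 * K ^ 2) ≤ Q := by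
            rw [hQ]
            have : (d : ℝ) ^ 2 ≤ (d + 1) ^ 2 * H := by nlinarith
            nlinarith [mul_le_mul_of_nonneg_right this (show (0 : ℝ) ≤ K ^ 2 by positivity)]
          have g2 : Q ≤ Q ^ 2 := by nlinarith
          linarith
        calc (d : ℝ) ^ 2 * (lam / Q ^ 2) * (384 * K ^ 2)
            = ((d : ℝ) ^ 2 * (384 * K ^ 2)) * (lam / Q ^ 2) := by ring
          _ ≤ Q ^ 2 * (lam / Q ^ 2) := mul_le_mul_of_nonneg_right this (by positivity)
          _ = s ^ 2 := by rw [hs2]; field_simp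
      have e2 : (d : ℝ) ^ 2 * (2 * s * H) * (384 * K ^ 2) ≤ s ^ 2 := by
        have g1 : (d : ℝ) ^ 2 * (2 * H) * (384 * K ^ 2) ≤ Q := by
          rw [hQ]
          nlinarith [mul_le_mul_of_nonneg_right hdd (show (0 : ℝ) ≤ H * K ^ 2 by positivity)]
        calc (d : ℝ) ^ 2 * (2 * s * H) * (384 * K ^ 2)
            = ((d : ℝ) ^ 2 * (2 * H) * (384 * K ^ 2)) * s := by ring
          _ ≤ Q * s := mul_le_mul_of_nonneg_right g1 hs0
          _ ≤ s * s := mul_le_mul_of_nonneg_right hQs hs0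
          _ = s ^ 2 := by ring
      have hK0 : 0 < K ^ 2 := by positivity
      have e3 : (384 * K ^ 2) * ((d : ℝ) ^ 2 * (lam / Q ^ 2 + 2 * s * H)) ≤
          (128 * K ^ 2) * ((p : ℝ) * p) := by nlinarith
      have e4 : (128 * K ^ 2) * (3 * ((d : ℝ) ^ 2 * (lam / Q ^ 2 + 2 * s * H))) ≤
          (128 * K ^ 2) * ((p : ℝ) * p) := by nlinarith
      exact le_of_mul_le_mul_left e4 (by positivity)
    have h : (((3 * ∑ i, ∑ j, |(R - vecMulVec u v) i j| : ℤ)) : ℝ) ≤ (((p : ℤ) * p : ℤ) : ℝ) := by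
      push_cast
      push_cast at hsum
      linarith
    exact_mod_cast h
  have hcore := core hα (hPL _ hβ) hαp hαm (fun i => hPL _ (hβp i)) (fun i => hPL _ (hβm i))
    (R - vecMulVec u v) hX
  have hdec : R = ((R - vecMulVec u v) + ((p : ℤ) * p) • vecMulVec α β) +
      (p : ℤ) • vecMulVec α (v - (p : ℤ) • β) + (p : ℤ) • vecMulVec (u - (p : ℤ) • α) β +
        vecMulVec (u - (p : ℤ) • α) (v - (p : ℤ) • β) := by
    ext i j
    simp only [Matrix.add_apply, Matrix.sub_apply, Matrix.smul_apply, vecMulVec_apply,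
      Pi.sub_apply, Pi.smul_apply, smul_eq_mul]
    ring
  rw [hdec]
  exact add_mem (add_mem (add_mem hcore (smul_mem_D (mem_D hα (hPL _ hv)) (Int.natCast_nonneg p)))
    (smul_mem_D (mem_D hu (hPL _ hβ)) (Int.natCast_nonneg p))) (mem_D hu (hPL _ hv))

end Pool.Agent.U571.NR
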